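import Mathlib
import Pool.Agent.R830.Semi.Defs
import Pool.Agent.R830.Semi.Final

/-! Noetherian domains of every dimension whose height-one primes are all associated to the
normalization quotient. -/

open Pool.Agent.R830.Semi in
/-- For every `d` there is a Noetherian integral domain `R` of Krull dimension `d` such that every
height-one prime of `R` is an associated prime of `Rⁿ/R`. -/
theorem Pool.Agent.Results.MP_b58525_ag.AllHeightOneAssociated.result (d : ℕ) :
    ∃ (R : Type) (_ : CommRing R) (_ : IsDomain R), IsNoetherianRing R ∧
      ringKrullDim R = d ∧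
      ∀ p : Ideal R, p.IsPrime → p.height = 1 → IsAssocNormal R p := by
  obtain ⟨R, h1, h2, h3, h4, -, h5⟩ := exists_ring d
  exact ⟨R, h1, h2, h3, h4, h5⟩
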